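import Mathlib
import Pool.Agent.Helper43.Quad.Counter

set_option autoImplicit false

open Set MeasureTheory Topology Filter
open scoped ENNReal

namespace Pool.Agent.Results.MP_935800_an.DomainIndependence

/-- The class `F^k_d(D)`: functions which are `k` times continuously differentiable on the interior
of `D`, bounded by `1` on `D`, and whose partial derivatives of all orders `j ≤ k` (the values of
the `j`-th derivative on `j`-tuples of coordinate vectors) are bounded by `1` on the interior. -/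
def classF (d k : ℕ) (D : Set (Fin d → ℝ)) : Set ((Fin d → ℝ) → ℝ) :=
  {f | ContDiffOn ℝ k f (interior D) ∧ (∀ x ∈ D, |f x| ≤ 1) ∧
    ∀ j ≤ k, ∀ r : Fin j → Fin d, ∀ x ∈ interior D,
      |iteratedFDeriv ℝ j f x (fun m => Pi.single (r m) 1)| ≤ 1}

/-- The `n`-th minimal worst case error `e(n, F^k_d(D))` of integration over `D`: the infimum over
the sample points in `D` and over all maps `φ : ℝ^n → ℝ` of the worst case error. -/
noncomputable def minErr (d k n : ℕ) (D : Set (Fin d → ℝ)) : ℝ≥0∞ :=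
  ⨅ (x : Fin n → D) (φ : (Fin n → ℝ) → ℝ), ⨆ f ∈ classF d k D,
    ENNReal.ofReal |(∫ y in D, f y) - φ (fun i => f (x i))|

/-- Bounded Jordan measurable sets of volume one. -/
def IsJordanOne {d : ℕ} (D : Set (Fin d → ℝ)) : Prop :=
  Bornology.IsBounded D ∧ volume (frontier D) = 0 ∧ volume D = 1

/-- The interior cone condition: every interior point of `D` is the vertex of a cone of fixed
height and opening contained in `D` (norm and balls are those of the maximum norm). -/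
def ConeCondition {d : ℕ} (D : Set (Fin d → ℝ)) : Prop :=
  ∃ θ > 0, ∃ r > 0, ∀ x ∈ interior D, ∃ v : Fin d → ℝ, ‖v‖ ≤ 1 ∧
    ∀ t : ℝ, 0 < t → t ≤ r → Metric.closedBall (x + t • v) (θ * t) ⊆ D

/-- The normalised errors `e(n, F^k_d(D)) n^(k/d)`. -/
noncomputable def normErr (d k : ℕ) (D : Set (Fin d → ℝ)) (n : ℕ) : ℝ≥0∞ :=
  minErr d k n D * (n : ℝ≥0∞) ^ ((k : ℝ) / (d : ℝ))

open Pool.Agent.Helper43.Quad

lemma classF_iff {d k : ℕ} {D : Set (Fin d → ℝ)} {f : (Fin d → ℝ) → ℝ} :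
    f ∈ classF d k D ↔ cF k D f := by
  constructor
  · rintro ⟨h1, h2, h3⟩
    exact ⟨h1, h2, fun j hj x hx r => h3 j hj r x hx⟩
  · rintro ⟨h1, h2, h3⟩
    exact ⟨h1, h2, fun j hj r x hx => h3 j hj x hx r⟩

lemma neg_mem {d k : ℕ} {D : Set (Fin d → ℝ)} {f : (Fin d → ℝ) → ℝ} (hf : f ∈ classF d k D) :
    (fun x => -f x) ∈ classF d k D := by
  obtain ⟨h1, h2, h3⟩ := hf
  refine ⟨h1.neg, fun x hx => by rw [abs_neg]; exact h2 x hx, fun j hj r x hx => ?_⟩
  have h4 : iteratedFDeriv ℝ j (fun x => -f x) x = -iteratedFDeriv ℝ j f x :=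
    iteratedFDeriv_neg_apply (𝕜 := ℝ) (i := j) (f := f) (x := x)
  rw [h4, neg_apply, abs_neg]
  exact h3 j hj r x hx

lemma err_ge {d k n : ℕ} {D : Set (Fin d → ℝ)} (s : ℝ)
    (h : ∀ x : Fin n → (Fin d → ℝ), (∀ i, x i ∈ D) → ∃ f : (Fin d → ℝ) → ℝ, cF k D f ∧
      (∀ i, f (x i) = 0) ∧ s ≤ ∫ y in D, f y) : ENNReal.ofReal s ≤ minErr d k n D := by
  unfold minErr
  refine le_iInf₂ (fun x φ => ?_)
  obtain ⟨f, hf, hf0, hfs⟩ := h (fun i => x i) (fun i => (x i).2)
  have hfc : f ∈ classF d k D := classF_iff.mpr hf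
  have hz : (fun i => f (x i)) = fun _ => 0 := by funext i; exact hf0 i
  have hz' : (fun i => (fun y => -f y) (x i : Fin d → ℝ)) = fun _ => 0 := by
    funext i; simp [hf0 i]
  by_cases hcase : s ≤ |(∫ y in D, f y) - φ (fun _ => 0)|
  · refine (ENNReal.ofReal_le_ofReal hcase).trans ?_
    have h1 := le_iSup₂ (f := fun (f : (Fin d → ℝ) → ℝ) (_ : f ∈ classF d k D) =>
      ENNReal.ofReal |(∫ y in D, f y) - φ (fun i => f (x i))|) f hfc
    simp only [hz] at h1
    exact h1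
  · push Not at hcase
    have h2 : s ≤ |(∫ y in D, -f y) - φ (fun _ => 0)| := by
      rw [integral_neg]
      have h3 := abs_lt.mp hcase
      rw [le_abs]
      right
      linarith [h3.1]
    refine (ENNReal.ofReal_le_ofReal h2).trans ?_
    have h1 := le_iSup₂ (f := fun (f : (Fin d → ℝ) → ℝ) (_ : f ∈ classF d k D) =>
      ENNReal.ofReal |(∫ y in D, f y) - φ (fun i => f (x i))|) (fun y => -f y) (neg_mem hfc)
    simp only [hz'] at h1
    exact h1

lemma half_sub_mem {d k : ℕ} {D : Set (Fin d → ℝ)} {f g : (Fin d → ℝ) → ℝ}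
    (hf : f ∈ classF d k D) (hg : g ∈ classF d k D) :
    (fun x => (1 / 2 : ℝ) • (f x - g x)) ∈ classF d k D := by
  obtain ⟨h1, h2, h3⟩ := hf
  obtain ⟨h1', h2', h3'⟩ := hg
  refine ⟨(h1.sub h1').const_smul (1 / 2 : ℝ), fun x hx => ?_, fun j hj r x hx => ?_⟩
  · have a1 := abs_le.mp (h2 x hx)
    have a2 := abs_le.mp (h2' x hx)
    show |(1 / 2 : ℝ) • (f x - g x)| ≤ 1
    rw [smul_eq_mul, abs_le]
    constructor <;> linarith [a1.1, a1.2, a2.1, a2.2]
  · have hfa : ContDiffAt ℝ j f x :=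
      (h1.contDiffAt (isOpen_interior.mem_nhds hx)).of_le (by exact_mod_cast hj)
    have hga : ContDiffAt ℝ j g x :=
      (h1'.contDiffAt (isOpen_interior.mem_nhds hx)).of_le (by exact_mod_cast hj)
    have hgn : ContDiffAt ℝ j (fun x => -g x) x := hga.neg
    have e1 : iteratedFDeriv ℝ j (fun x => (1 / 2 : ℝ) • (f x - g x)) x =
        (1 / 2 : ℝ) • (iteratedFDeriv ℝ j f x + -iteratedFDeriv ℝ j g x) := by
      have e2 : (fun x => (1 / 2 : ℝ) • (f x - g x)) =
          fun x => (1 / 2 : ℝ) • ((fun x => f x + (fun x => -g x) x) x) := by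
        funext x; simp only [sub_eq_add_neg]
      have e3 : ContDiffAt ℝ j (fun x => f x + (fun x => -g x) x) x := hfa.add hgn
      have e4 : iteratedFDeriv ℝ j (fun x => -g x) x = -iteratedFDeriv ℝ j g x :=
        iteratedFDeriv_neg_apply (𝕜 := ℝ) (i := j) (f := g) (x := x)
      rw [e2, iteratedFDeriv_const_smul_apply' e3, fun_iteratedFDeriv_add_apply hfa hgn, e4]
    rw [e1, smul_apply, add_apply, neg_apply, smul_eq_mul]
    have a1 := abs_le.mp (h3 j hj r x hx)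
    have a2 := abs_le.mp (h3' j hj r x hx)
    rw [abs_le]
    constructor <;> linarith [a1.1, a1.2, a2.1, a2.2]

lemma class_integrable {d k : ℕ} {D : Set (Fin d → ℝ)} (hD : IsJordanOne D)
    {f : (Fin d → ℝ) → ℝ} (hf : f ∈ classF d k D) : IntegrableOn f D := by
  obtain ⟨hb, hfr, hv⟩ := hD
  have hDU : D =ᵐ[volume] interior D := (interior_ae_eq_of_null_frontier hfr).symm
  refine IntegrableOn.congr_set_ae ?_ hDU
  have hvU : volume (interior D) < ⊤ := by
    rw [← measure_congr hDU, hv]; exact ENNReal.one_lt_top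
  refine IntegrableOn.of_bound hvU
    (hf.1.continuousOn.aestronglyMeasurable isOpen_interior.measurableSet) 1 ?_
  refine (ae_restrict_iff' isOpen_interior.measurableSet).mpr (Eventually.of_forall ?_)
  intro x hx
  rw [Real.norm_eq_abs]
  exact hf.2.1 x (interior_subset hx)

lemma err_le {d k n : ℕ} {D : Set (Fin d → ℝ)} (hD : IsJordanOne D) (s : ℝ) (hs : 0 ≤ s)
    (P : Finset (Fin d → ℝ)) (hPD : ∀ p ∈ P, p ∈ D) (hPn : P.card ≤ n)
    (h : ∀ f : (Fin d → ℝ) → ℝ, cF k D f → (∀ p ∈ P, f p = 0) → |∫ y in D, f y| ≤ s) :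
    minErr d k n D ≤ ENNReal.ofReal s := by
  classical
  have hne : D.Nonempty := by
    rw [Set.nonempty_iff_ne_empty]
    rintro rfl
    have := hD.2.2
    simp at this
  obtain ⟨p0, hp0⟩ := hne
  -- sample points
  obtain ⟨x, hx⟩ : ∃ x : Fin n → D, ∀ p ∈ P, ∃ i, (x i : Fin d → ℝ) = p := by
    let e := P.equivFin
    refine ⟨fun i => if hi : (i : ℕ) < P.card then
      ⟨(e.symm ⟨i, hi⟩ : Fin d → ℝ), hPD _ (e.symm ⟨i, hi⟩).2⟩ else ⟨p0, hp0⟩, ?_⟩
    intro p hp
    let j := e ⟨p, hp⟩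
    refine ⟨⟨j, lt_of_lt_of_le j.2 hPn⟩, ?_⟩
    simp only [j.2, dif_pos, Fin.eta]
    simp [j]
  -- the set of possible integrals
  let A : (Fin n → ℝ) → Set ℝ := fun y =>
    {t | ∃ f ∈ classF d k D, (fun i => f (x i)) = y ∧ ∫ y in D, f y = t}
  let φ : (Fin n → ℝ) → ℝ := fun y => (sInf (A y) + sSup (A y)) / 2
  refine (iInf₂_le x φ).trans ?_
  refine iSup₂_le (fun f hf => ?_)
  apply ENNReal.ofReal_le_ofReal
  set y := fun i => f (x i) with hy
  have hdiam : ∀ t ∈ A y, ∀ t' ∈ A y, t - t' ≤ 2 * s := by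
    rintro t ⟨f1, hf1, hf1y, rfl⟩ t' ⟨f2, hf2, hf2y, rfl⟩
    have h1 := h _ (classF_iff.mp (half_sub_mem hf1 hf2)) (by
      intro p hp
      obtain ⟨i, hi⟩ := hx p hp
      have e1 := congrFun hf1y i
      have e2 := congrFun hf2y i
      rw [← hi, e1, e2, sub_self, smul_zero])
    rw [integral_smul, integral_sub (class_integrable hD hf1) (class_integrable hD hf2),
      smul_eq_mul] at h1
    have h2 := (abs_le.mp h1).2
    linarith
  have hmem : (∫ y in D, f y) ∈ A y := ⟨f, hf, rfl, rfl⟩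
  have hAne : (A y).Nonempty := ⟨_, hmem⟩
  have hbb : BddBelow (A y) := ⟨(∫ y in D, f y) - 2 * s, fun t ht => by
    linarith [hdiam _ hmem t ht]⟩
  have hba : BddAbove (A y) := ⟨(∫ y in D, f y) + 2 * s, fun t ht => by
    linarith [hdiam t ht _ hmem]⟩
  have h1 : sInf (A y) ≤ ∫ y in D, f y := csInf_le hbb hmem
  have h2 : ∫ y in D, f y ≤ sSup (A y) := le_csSup hba hmem
  have h3 : sSup (A y) ≤ sInf (A y) + 2 * s := by
    apply csSup_le hAne
    intro t ht
    have : t - 2 * s ≤ sInf (A y) := le_csInf hAne (fun t' ht' => by linarith [hdiam t ht t' ht'])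
    linarith
  show |(∫ y in D, f y) - (sInf (A y) + sSup (A y)) / 2| ≤ s
  rw [abs_le]
  constructor <;> linarith

lemma natCast_rpow (n : ℕ) (q : ℝ) (hq : 0 ≤ q) :
    (n : ℝ≥0∞) ^ q = ENNReal.ofReal ((n : ℝ) ^ q) := by
  rw [← ENNReal.ofReal_natCast, ENNReal.ofReal_rpow_of_nonneg (Nat.cast_nonneg n) hq]

lemma thin_mono {d k : ℕ} {c c' : ℝ} (h : Thin d k c) (hc : c ≤ c') : Thin d k c' := by
  intro m0
  obtain ⟨m, hm, P, hP, hg⟩ := h m0
  refine ⟨m, hm, P, hP, fun g hgK hg0 => (hg g hgK hg0).trans ?_⟩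
  exact mul_le_mul_of_nonneg_right hc (Real.rpow_nonneg (Nat.cast_nonneg m) _)

/-- lower bound for all Jordan measurable sets -/
lemma lower_limit {d k : ℕ} (hd : 1 ≤ d) {D : Set (Fin d → ℝ)} (hD : IsJordanOne D)
    (a0 a1 : ℝ) (h0 : 0 ≤ a0) (h01 : a0 < a1) (hnT : ¬ Thin d k a1) :
    ∀ᶠ n : ℕ in atTop, ENNReal.ofReal a0 ≤ normErr d k D n := by
  classical
  obtain ⟨hb, hfr, hv⟩ := hD
  have ha1 : 0 < a1 := lt_of_le_of_lt h0 h01
  have hd0 : (0 : ℝ) < d := by exact_mod_cast hd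
  have hq : 0 ≤ qq d k := by unfold qq; positivity
  set q := qq d k with hqdef
  have hDU : D =ᵐ[volume] interior D := (interior_ae_eq_of_null_frontier hfr).symm
  have hvU : volume (interior D) = 1 := by rw [← measure_congr hDU]; exact hv
  have hbU : Bornology.IsBounded (interior D) := hb.subset interior_subset
  -- H
  unfold Thin at hnT
  push Not at hnT
  obtain ⟨m0, hm0⟩ := hnT
  set b : ℕ := max m0 1 with hbdef
  have hb1 : 1 ≤ b := le_max_right _ _
  have hbm : m0 ≤ b := le_max_left _ _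
  have hb0 : (0 : ℝ) < b := by exact_mod_cast hb1
  have H : ∀ (m : ℕ) (P : Finset (Fin d → ℝ)), P.card ≤ m → ∃ g : (Fin d → ℝ) → ℝ, cK k g ∧
      (∀ p ∈ P, g p = 0) ∧ a1 * ((m : ℝ) + b) ^ (-q) ≤ ∫ x, g x := by
    intro m P hP
    obtain ⟨g, hg, hg0, hgint⟩ := hm0 (max m b) (hbm.trans (le_max_right _ _)) P
      (hP.trans (le_max_left _ _))
    refine ⟨g, hg, hg0, le_trans ?_ hgint.le⟩
    apply mul_le_mul_of_nonneg_left _ ha1.le
    apply Real.rpow_le_rpow_of_nonpos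
    · have : (0 : ℝ) < ((max m b : ℕ) : ℝ) := by
        exact_mod_cast lt_of_lt_of_le hb1 (le_max_right _ _)
      exact this
    · have : max m b ≤ m + b := by omega
      exact_mod_cast this
    · linarith
  -- choice of ε
  obtain ⟨ε, hε, hε1, hεa⟩ : ∃ ε : ℝ, 0 < ε ∧ ε < 1 ∧ a0 < a1 * ((1 - ε) * (1 - ε) ^ q) := by
    have hcont : ContinuousAt (fun e : ℝ => a1 * ((1 - e) * (1 - e) ^ q)) 0 := by
      apply ContinuousAt.mul continuousAt_const
      apply ContinuousAt.mul (by fun_prop)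
      apply ContinuousAt.rpow_const (by fun_prop)
      left; norm_num
    have hval : a0 < a1 * ((1 - (0 : ℝ)) * (1 - 0) ^ q) := by simpa using h01
    have hev := (continuousAt_const (y := a0)).eventually_lt hcont hval
    obtain ⟨δ, hδ, hball⟩ := Metric.eventually_nhds_iff.mp hev
    refine ⟨min (δ / 2) (1 / 2), by positivity, ?_, ?_⟩
    · exact lt_of_le_of_lt (min_le_right _ _) (by norm_num)
    · apply hball
      rw [Real.dist_eq, sub_zero, abs_of_pos (by positivity)]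
      exact lt_of_le_of_lt (min_le_left _ _) (by linarith)
  obtain ⟨N, hNpos, hinner⟩ := inner_ge (interior D) isOpen_interior hbU hvU ε hε
  have hge := hinner N le_rfl
  set Z := inner N (interior D) with hZ
  have hN0 : (0 : ℝ) < N := by exact_mod_cast hNpos
  set ρ : ℝ := (Z.card : ℝ) * (1 / (N : ℝ)) ^ d with hρ
  have hρ0 : 0 < ρ := by linarith
  have hZne : Z.Nonempty := by
    rw [← Finset.card_pos]
    rcases Nat.eq_zero_or_pos Z.card with h | h
    · rw [hρ, h] at hρ0; simp at hρ0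
    · exact h
  have hL0 : (0 : ℝ) < Z.card := by exact_mod_cast hZne.card_pos
  set L : ℝ := (Z.card : ℝ) with hL
  -- the lower bound for each n
  have hlow : ∀ n : ℕ, ENNReal.ofReal ((1 / (N : ℝ)) ^ (k + d) *
      (L * (a1 * ((n : ℝ) / L + b) ^ (-q)))) ≤ minErr d k n D := by
    intro n
    apply err_ge
    intro x hx
    exact lower_fool d k hd D N hNpos Z (fun z hz => (mem_inner hbU hNpos z).mp hz) hZne a1 b
      ha1.le hb0 H n x
  -- the limit
  have hlim : Tendsto (fun n : ℕ => (1 / (N : ℝ)) ^ (k + d) *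
      (L * (a1 * ((n : ℝ) / L + b) ^ (-q))) * (n : ℝ) ^ q) atTop (𝓝 (a1 * (ρ * ρ ^ q))) := by
    have h1 : Tendsto (fun n : ℕ => ((n : ℝ) / ((n : ℝ) / L + b))) atTop (𝓝 L) := by
      have h2 : Tendsto (fun n : ℕ => (1 / L + (b : ℝ) * (n : ℝ)⁻¹)⁻¹) atTop (𝓝 ((1 / L + b * 0)⁻¹)) := by
        apply Tendsto.inv₀
        · exact tendsto_const_nhds.add (tendsto_const_nhds.mul tendsto_inv_atTop_nhds_zero_nat)
        · simp [hL0.ne']
      have h3 : (1 / L + (b : ℝ) * 0)⁻¹ = L := by simp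
      rw [h3] at h2
      apply h2.congr'
      filter_upwards [eventually_gt_atTop 0] with n hn
      have hn0 : (0 : ℝ) < n := by exact_mod_cast hn
      field_simp
    have h2 : Tendsto (fun n : ℕ => ((n : ℝ) / ((n : ℝ) / L + b)) ^ q) atTop (𝓝 (L ^ q)) :=
      h1.rpow_const (Or.inl hL0.ne')
    have h3 := h2.const_mul (a1 * ((1 / (N : ℝ)) ^ (k + d) * L))
    have h4 : a1 * ((1 / (N : ℝ)) ^ (k + d) * L) * L ^ q = a1 * (ρ * ρ ^ q) := by
      have h5 : (1 / (N : ℝ)) ^ k = ((1 / (N : ℝ)) ^ d) ^ q := by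
        rw [← Real.rpow_natCast, ← Real.rpow_natCast, ← Real.rpow_mul (by positivity)]
        congr 1
        rw [hqdef]; unfold qq; field_simp
      rw [hρ, Real.mul_rpow hL0.le (by positivity), pow_add, h5]
      ring
    rw [h4] at h3
    apply h3.congr'
    filter_upwards [eventually_gt_atTop 0] with n hn
    have hn0 : (0 : ℝ) < n := by exact_mod_cast hn
    have h6 : 0 < (n : ℝ) / L + b := by positivity
    rw [Real.div_rpow hn0.le h6.le, Real.rpow_neg h6.le]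
    field_simp
  have hρε : a0 < a1 * (ρ * ρ ^ q) := by
    refine lt_of_lt_of_le hεa ?_
    apply mul_le_mul_of_nonneg_left _ ha1.le
    have h1 : 0 ≤ 1 - ε := by linarith
    exact mul_le_mul hge (Real.rpow_le_rpow h1 hge hq) (Real.rpow_nonneg h1 _) hρ0.le
  filter_upwards [hlim.eventually (lt_mem_nhds hρε)] with n hn
  unfold normErr
  have h1 : (n : ℝ≥0∞) ^ ((k : ℝ) / (d : ℝ)) = ENNReal.ofReal ((n : ℝ) ^ q) :=
    natCast_rpow n _ hq
  rw [h1]
  calc ENNReal.ofReal a0 ≤ ENNReal.ofReal ((1 / (N : ℝ)) ^ (k + d) *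
      (L * (a1 * ((n : ℝ) / L + b) ^ (-q))) * (n : ℝ) ^ q) := ENNReal.ofReal_le_ofReal hn.le
    _ = ENNReal.ofReal ((1 / (N : ℝ)) ^ (k + d) * (L * (a1 * ((n : ℝ) / L + b) ^ (-q)))) *
        ENNReal.ofReal ((n : ℝ) ^ q) := by
        rw [ENNReal.ofReal_mul (by positivity)]
    _ ≤ minErr d k n D * ENNReal.ofReal ((n : ℝ) ^ q) := by
        gcongr
        exact hlow n

/-- upper bound for sets with the cone condition -/
lemma upper_limit {d k : ℕ} (hd : 1 ≤ d) (hk : 1 ≤ k) {D : Set (Fin d → ℝ)} (hD : IsJordanOne D)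
    (hcone : ConeCondition D) (c c' : ℝ) (hc : 0 ≤ c) (hcc : c < c') (hT : Thin d k c) :
    ∀ᶠ n : ℕ in atTop, normErr d k D n ≤ ENNReal.ofReal c' := by
  classical
  have hD' := hD
  obtain ⟨hb, hfr, hv⟩ := hD
  have hd0 : (0 : ℝ) < d := by exact_mod_cast hd
  have hk0 : (0 : ℝ) < k := by exact_mod_cast hk
  have hq : 0 < qq d k := div_pos hk0 hd0
  set q := qq d k with hqdef
  obtain ⟨m, e, hm, he, hG, hme⟩ := good_of_thin d k hd hk c c' hc hcc hT
  rw [← hqdef] at hme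
  have hm0 : (0 : ℝ) < m := by exact_mod_cast hm
  -- cone condition with the interior
  obtain ⟨θ, hθ, r, hr, hcone⟩ := hcone
  have hcone' : ∀ x ∈ interior D, ∃ v : Fin d → ℝ, ‖v‖ ≤ 1 ∧ ∀ t : ℝ, 0 < t → t ≤ r →
      Metric.closedBall (x + t • v) (min (θ / 2) 1 * t) ⊆ interior D := by
    intro x hx
    obtain ⟨v, hv1, hv2⟩ := hcone x hx
    refine ⟨v, hv1, fun t ht htr => ?_⟩
    have h1 : Metric.closedBall (x + t • v) (min (θ / 2) 1 * t) ⊆
        Metric.ball (x + t • v) (θ * t) := by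
      apply Metric.closedBall_subset_ball
      have : min (θ / 2) 1 ≤ θ / 2 := min_le_left _ _
      nlinarith
    refine h1.trans (interior_maximal ?_ Metric.isOpen_ball)
    exact Metric.ball_subset_closedBall.trans (hv2 t ht htr)
  -- choice of μ, τ
  obtain ⟨η, hη, hηc⟩ : ∃ η : ℝ, 0 < η ∧ ((m : ℝ) + η) ^ q * (e + η) < c' := by
    have hcont : ContinuousAt (fun η : ℝ => ((m : ℝ) + η) ^ q * (e + η)) 0 := by
      apply ContinuousAt.mul
      · apply ContinuousAt.rpow_const (by fun_prop)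
        left; rw [add_zero]; exact hm0.ne'
      · fun_prop
    have hval : ((m : ℝ) + 0) ^ q * (e + 0) < c' := by simpa using hme
    have hev := hcont.eventually_lt (continuousAt_const (y := c')) hval
    obtain ⟨δ, hδ, hball⟩ := Metric.eventually_nhds_iff.mp hev
    refine ⟨δ / 2, by positivity, ?_⟩
    apply hball
    rw [Real.dist_eq, sub_zero, abs_of_pos (by positivity)]
    linarith
  set μ : ℝ := m + η with hμ
  set τ : ℝ := e + η with hτ
  have hμ0 : 0 < μ := by positivity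
  have hτ0 : 0 < τ := by positivity
  obtain ⟨N0, hN0pos, hcore⟩ := upper_core d k hd hk D hb hfr hv (min (θ / 2) 1) r
    (by positivity) (min_le_right _ _) hr hcone' m e he hG μ τ (by linarith) (by linarith)
  -- large N
  have hNlim : Tendsto (fun N : ℕ => μ ^ q * τ * (1 + 1 / (N : ℝ)) ^ k) atTop
      (𝓝 (μ ^ q * τ * (1 + 0) ^ k)) := by
    apply Tendsto.const_mul
    apply Tendsto.pow
    exact tendsto_const_nhds.add tendsto_one_div_atTop_nhds_zero_nat
  have hval : μ ^ q * τ * (1 + 0) ^ k < c' := by simpa using hηc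
  obtain ⟨N1, hN1⟩ := (hNlim.eventually (gt_mem_nhds hval)).exists_forall_of_atTop
  -- N as a function of n
  have hfl : Tendsto (fun n : ℕ => ⌊((n : ℝ) / μ) ^ (1 / (d : ℝ))⌋₊) atTop atTop := by
    apply tendsto_nat_floor_atTop.comp
    apply (tendsto_rpow_atTop (by positivity)).comp
    exact tendsto_natCast_atTop_atTop.atTop_div_const hμ0
  filter_upwards [hfl.eventually_ge_atTop (max N0 N1), eventually_gt_atTop 0] with n hn hnpos
  set N : ℕ := ⌊((n : ℝ) / μ) ^ (1 / (d : ℝ))⌋₊ with hN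
  have hNN0 : N0 ≤ N := (le_max_left _ _).trans hn
  have hNN1 : N1 ≤ N := (le_max_right _ _).trans hn
  have hNpos : 0 < N := by omega
  have hN0' : (0 : ℝ) < N := by exact_mod_cast hNpos
  have hn0 : (0 : ℝ) < n := by exact_mod_cast hnpos
  have hnμ : 0 < (n : ℝ) / μ := by positivity
  have hroot : (((n : ℝ) / μ) ^ (1 / (d : ℝ))) ^ d = (n : ℝ) / μ := by
    rw [← Real.rpow_natCast, ← Real.rpow_mul hnμ.le, one_div, inv_mul_cancel₀ hd0.ne',
      Real.rpow_one]
  have hNle : μ * (N : ℝ) ^ d ≤ n := by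
    have h1 : (N : ℝ) ≤ ((n : ℝ) / μ) ^ (1 / (d : ℝ)) := Nat.floor_le (by positivity)
    have h2 : (N : ℝ) ^ d ≤ (n : ℝ) / μ := by
      rw [← hroot]; exact pow_le_pow_left₀ hN0'.le h1 d
    rw [le_div_iff₀ hμ0] at h2
    linarith
  have hNge : (n : ℝ) ≤ μ * ((N : ℝ) + 1) ^ d := by
    have h1 : ((n : ℝ) / μ) ^ (1 / (d : ℝ)) ≤ (N : ℝ) + 1 := (Nat.lt_floor_add_one _).le
    have h2 : (n : ℝ) / μ ≤ ((N : ℝ) + 1) ^ d := by
      rw [← hroot]; exact pow_le_pow_left₀ (by positivity) h1 d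
    rw [div_le_iff₀ hμ0] at h2
    linarith
  obtain ⟨P, hPD, hPn, hPf⟩ := hcore N hNN0 n hNle
  have herr := err_le hD' (τ * (1 / (N : ℝ)) ^ k) (by positivity) P hPD hPn hPf
  unfold normErr
  have h1 : (n : ℝ≥0∞) ^ ((k : ℝ) / (d : ℝ)) = ENNReal.ofReal ((n : ℝ) ^ q) :=
    natCast_rpow n _ hq.le
  rw [h1]
  have h2 : τ * (1 / (N : ℝ)) ^ k * (n : ℝ) ^ q ≤ c' := by
    have h3 : (n : ℝ) ^ q ≤ μ ^ q * ((N : ℝ) + 1) ^ k := by
      have h4 : (n : ℝ) ^ q ≤ (μ * ((N : ℝ) + 1) ^ d) ^ q := Real.rpow_le_rpow hn0.le hNge hq.le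
      rw [Real.mul_rpow hμ0.le (by positivity)] at h4
      have h5 : (((N : ℝ) + 1) ^ d) ^ q = ((N : ℝ) + 1) ^ k := by
        rw [← Real.rpow_natCast, ← Real.rpow_natCast, ← Real.rpow_mul (by positivity)]
        congr 1
        rw [hqdef]; unfold qq; field_simp
      rwa [h5] at h4
    calc τ * (1 / (N : ℝ)) ^ k * (n : ℝ) ^ q
        ≤ τ * (1 / (N : ℝ)) ^ k * (μ ^ q * ((N : ℝ) + 1) ^ k) :=
          mul_le_mul_of_nonneg_left h3 (by positivity)
      _ = μ ^ q * τ * (1 + 1 / (N : ℝ)) ^ k := by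
          have h6 : 1 + 1 / (N : ℝ) = (1 / (N : ℝ)) * ((N : ℝ) + 1) := by field_simp
          rw [h6, mul_pow]; ring
      _ ≤ c' := (hN1 N hNN1).le
  calc minErr d k n D * ENNReal.ofReal ((n : ℝ) ^ q)
      ≤ ENNReal.ofReal (τ * (1 / (N : ℝ)) ^ k) * ENNReal.ofReal ((n : ℝ) ^ q) := by gcongr
    _ = ENNReal.ofReal (τ * (1 / (N : ℝ)) ^ k * (n : ℝ) ^ q) := by
        rw [ENNReal.ofReal_mul (p := τ * (1 / (N : ℝ)) ^ k) (by positivity)]
    _ ≤ ENNReal.ofReal c' := ENNReal.ofReal_le_ofReal h2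

/-- the slit cube -/
lemma slit_limit {d k : ℕ} (hd : 1 ≤ d) (hk : 1 ≤ k) :
    ∃ D : Set (Fin d → ℝ), IsJordanOne D ∧ IsOpen D ∧ Tendsto (normErr d k D) atTop (𝓝 ⊤) := by
  have hd0 : (0 : ℝ) < d := by exact_mod_cast hd
  have hk1 : (1 : ℝ) ≤ k := by exact_mod_cast hk
  set s : ℝ := 1 / (2 * d) with hs
  have hs0 : 0 < s := by positivity
  set q : ℝ := (k : ℝ) / d with hq
  have hq0 : 0 ≤ q := by positivity
  have hsq : s < q := by
    rw [hs, hq, div_lt_div_iff₀ (by positivity) hd0]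
    nlinarith
  let i0 : Fin d := ⟨0, hd⟩
  refine ⟨slitCube d i0 s, ⟨slitCube_bounded d i0 s, slitCube_frontier d i0 s hs0,
    slitCube_volume d i0 s⟩, slitCube_open d i0 s hs0, ?_⟩
  have hlow : ∀ n : ℕ, ENNReal.ofReal ((n : ℝ) * (s * (2 * (n : ℝ) + 1) ^ (-s - 1))) ≤
      minErr d k n (slitCube d i0 s) := by
    intro n
    apply err_ge
    intro x hx
    exact ⟨slabFun i0 s x, slabFun_cF i0 s hs0 x, fun i => slabFun_zero i0 s x i,
      slabFun_integral i0 s hs0 x hx⟩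
  have hlim : Tendsto (fun n : ℕ => (s * 3 ^ (-s - 1)) * (n : ℝ) ^ (q - s)) atTop atTop := by
    apply Tendsto.const_mul_atTop (by positivity)
    exact (tendsto_rpow_atTop (by linarith)).comp tendsto_natCast_atTop_atTop
  have hlim2 := ENNReal.tendsto_ofReal_atTop.comp hlim
  refine tendsto_nhds_top_mono hlim2 ?_
  filter_upwards [eventually_gt_atTop 0] with n hn
  have hn0 : (0 : ℝ) < n := by exact_mod_cast hn
  have hn1 : (1 : ℝ) ≤ n := by exact_mod_cast hn
  simp only [Function.comp]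
  unfold normErr
  rw [natCast_rpow n _ hq0]
  calc ENNReal.ofReal ((s * 3 ^ (-s - 1)) * (n : ℝ) ^ (q - s))
      ≤ ENNReal.ofReal ((n : ℝ) * (s * (2 * (n : ℝ) + 1) ^ (-s - 1)) * (n : ℝ) ^ q) := by
        apply ENNReal.ofReal_le_ofReal
        have h1 : (3 * (n : ℝ)) ^ (-s - 1) ≤ (2 * (n : ℝ) + 1) ^ (-s - 1) :=
          Real.rpow_le_rpow_of_nonpos (by positivity) (by linarith) (by linarith)
        rw [Real.mul_rpow (by norm_num) hn0.le] at h1
        have h2 : (n : ℝ) ^ (q - s) = (n : ℝ) * (n : ℝ) ^ (-s - 1) * (n : ℝ) ^ q := by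
          rw [mul_assoc, ← Real.rpow_add hn0]
          nth_rewrite 2 [← Real.rpow_one (n : ℝ)]
          rw [← Real.rpow_add hn0]
          congr 1; ring
        rw [h2]
        calc (s * 3 ^ (-s - 1)) * ((n : ℝ) * (n : ℝ) ^ (-s - 1) * (n : ℝ) ^ q)
            = ((n : ℝ) * (s * (3 ^ (-s - 1) * (n : ℝ) ^ (-s - 1)))) * (n : ℝ) ^ q := by ring
          _ ≤ ((n : ℝ) * (s * (2 * (n : ℝ) + 1) ^ (-s - 1))) * (n : ℝ) ^ q := by gcongr
    _ = ENNReal.ofReal ((n : ℝ) * (s * (2 * (n : ℝ) + 1) ^ (-s - 1))) *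
        ENNReal.ofReal ((n : ℝ) ^ q) := by rw [ENNReal.ofReal_mul (by positivity)]
    _ ≤ _ := by gcongr; exact hlow n

/-- **Domain independence of the asymptotic constant.** -/
theorem result (d k : ℕ) (hd : 0 < d) (hk : 0 < k) :
    (∃ C : ℝ, 0 < C ∧
      (∀ D : Set (Fin d → ℝ), IsJordanOne D → ConeCondition D →
        Tendsto (normErr d k D) atTop (𝓝 (ENNReal.ofReal C))) ∧
      (∀ D : Set (Fin d → ℝ), IsJordanOne D →
        ENNReal.ofReal C ≤ liminf (normErr d k D) atTop)) ∧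
    ∃ D : Set (Fin d → ℝ), IsJordanOne D ∧ IsOpen D ∧ Tendsto (normErr d k D) atTop (𝓝 ⊤) := by
  refine ⟨?_, slit_limit hd hk⟩
  obtain ⟨c0, hc0, hTc0⟩ := thin_exists d k hd hk
  obtain ⟨a, ha, hnTa⟩ := not_thin d k hd hk
  set A : Set ℝ := {c | 0 ≤ c ∧ Thin d k c} with hA
  have hAne : A.Nonempty := ⟨c0, hc0, hTc0⟩
  have hAbdd : BddBelow A := ⟨0, fun c hc => hc.1⟩
  set C := sInf A with hC
  have haC : a ≤ C := by
    apply le_csInf hAne
    intro c hc
    by_contra h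
    push Not at h
    exact hnTa (thin_mono hc.2 h.le)
  have hCpos : 0 < C := lt_of_lt_of_le ha haC
  have hbelow : ∀ c, 0 ≤ c → c < C → ¬ Thin d k c := by
    intro c hc hcC hT
    exact absurd (csInf_le hAbdd (⟨hc, hT⟩ : c ∈ A)) (not_le.mpr hcC)
  have habove : ∀ c, C < c → Thin d k c := by
    intro c hc
    obtain ⟨c1, hc1, hc1c⟩ := exists_lt_of_csInf_lt hAne hc
    exact thin_mono hc1.2 hc1c.le
  have hlower : ∀ D : Set (Fin d → ℝ), IsJordanOne D → ∀ a' : ℝ≥0∞, a' < ENNReal.ofReal C →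
      ∀ᶠ n : ℕ in atTop, a' < normErr d k D n := by
    intro D hD a' ha'
    obtain ⟨a0, ha0, h1, h2⟩ := ENNReal.lt_iff_exists_real_btwn.mp ha'
    have h3 : a0 < C := (ENNReal.ofReal_lt_ofReal_iff hCpos).mp h2
    obtain ⟨a1, h4, h5⟩ := exists_between h3
    filter_upwards [lower_limit hd hD a0 a1 ha0 h4 (hbelow a1 (ha0.trans h4.le) h5)] with n hn
    exact lt_of_lt_of_le h1 hn
  refine ⟨C, hCpos, ?_, ?_⟩
  · intro D hD hcone
    rw [tendsto_order]
    refine ⟨hlower D hD, ?_⟩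
    intro b' hb'
    obtain ⟨c', hc', h1, h2⟩ := ENNReal.lt_iff_exists_real_btwn.mp hb'
    have h3 : C < c' := by
      by_contra h
      push Not at h
      exact absurd (ENNReal.ofReal_le_ofReal h) (not_le.mpr h1)
    obtain ⟨c, h4, h5⟩ := exists_between h3
    filter_upwards [upper_limit hd hk hD hcone c c' (hCpos.le.trans h4.le) h5 (habove c h4)]
      with n hn
    exact lt_of_le_of_lt hn h2
  · intro D hD
    refine le_of_forall_lt (fun a' ha' => ?_)
    obtain ⟨a'', h1, h2⟩ := exists_between ha'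
    refine lt_of_lt_of_le h1 ?_
    apply le_liminf_of_le
    · isBoundedDefault
    · filter_upwards [hlower D hD a'' h2] with n hn
      exact hn.le

end Pool.Agent.Results.MP_935800_an.DomainIndependence
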